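import Pool.Agent.R596.FcCps

/-!
# The four statements are not pairwise equivalent

There is a countable transitive model of ZF in which every compact metrizable space is separable,
but some countable product of compact metrizable spaces is not separable. The definitions are in
`Pool.Agent.R596.FcDefs` and `Pool.Agent.R596.FcProd`.
-/

set_option autoImplicit false

namespace Pool.Agent.Results.MP_1454e8_lc.SeparableNotProducts

open Pool.Agent.W868 Pool.Agent.R596Fc

theorem result : ∃ M : Set ZFSet.{0}, M.Countable ∧ IsZF M ∧ MCS M ∧ ¬ CPMCS M :=
  Pool.Agent.R596.FC.main2

end Pool.Agent.Results.MP_1454e8_lc.SeparableNotProducts
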